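import Pool.Agent.H41.HYP.S3

/-!
# HYP: TWS, the classes of the twist
-/

set_option autoImplicit false

namespace Pool.HYP

open Polynomial

namespace H33

section Scale

variable {K : Type} [Field K]

/-- Composition with `δ X`. -/
theorem comp_scale (G : K[X]) (δ : K) :
    (G.scaleRoots δ).comp (C δ * X) = C (δ ^ G.natDegree) * G := by
  have h := scaleRoots_eval₂_mul (p := G) (C : K →+* K[X]) (X : K[X]) δ
  rw [eval₂_C_X] at h
  rw [map_pow]
  exact h

/-- Composition with `δ X` as an isomorphism. -/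
noncomputable def scE (δ : K) (hδ : δ ≠ 0) : K[X] ≃ₐ[K] K[X] :=
  AlgEquiv.ofAlgHom (aeval (C δ * X)) (aeval (C δ⁻¹ * X))
    (by
      refine algHom_ext ?_
      rw [AlgHom.comp_apply, aeval_X, map_mul, aeval_X, aeval_C, algebraMap_eq,
        AlgHom.id_apply, ← mul_assoc, ← C_mul, inv_mul_cancel₀ hδ, C_1, one_mul])
    (by
      refine algHom_ext ?_
      rw [AlgHom.comp_apply, aeval_X, map_mul, aeval_X, aeval_C, algebraMap_eq,
        AlgHom.id_apply, ← mul_assoc, ← C_mul, mul_inv_cancel₀ hδ, C_1, one_mul])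

theorem scE_apply (δ : K) (hδ : δ ≠ 0) (p : K[X]) : scE δ hδ p = p.comp (C δ * X) := rfl

/-- The norm and the scaling of the roots. -/
theorem norm_scale (G p : K[X]) (δ : K) (hδ : δ ≠ 0) :
    Algebra.norm K (AdjoinRoot.mk G (p.comp (C δ * X))) =
      Algebra.norm K (AdjoinRoot.mk (G.scaleRoots δ) p) := by
  have h1 : Ideal.span {G} = (Ideal.span {G.scaleRoots δ}).map
      (scE δ hδ : K[X] ≃+* K[X]) := by
    rw [Ideal.map_span, Set.image_singleton]
    have h2 : (scE δ hδ : K[X] ≃+* K[X]) (G.scaleRoots δ) = C (δ ^ G.natDegree) * G :=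
      comp_scale G δ
    rw [h2, Ideal.span_singleton_mul_left_unit]
    exact isUnit_C.2 (isUnit_iff_ne_zero.2 (pow_ne_zero _ hδ))
  exact Algebra.norm_eq_of_algEquiv
    (Ideal.quotientEquivAlg (Ideal.span {G.scaleRoots δ}) (Ideal.span {G}) (scE δ hδ) h1)
    (AdjoinRoot.mk (G.scaleRoots δ) p)

/-- Divisibility and the scaling of the roots. -/
theorem dvd_scale (G p : K[X]) (δ : K) (hδ : δ ≠ 0) :
    G ∣ p.comp (C δ * X) ↔ G.scaleRoots δ ∣ p := by
  have hu : IsUnit (C (δ ^ G.natDegree) : K[X]) :=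
    isUnit_C.2 (isUnit_iff_ne_zero.2 (pow_ne_zero _ hδ))
  constructor
  · intro h
    have h1 : (G.scaleRoots δ).comp (C δ * X) ∣ p.comp (C δ * X) := by
      rw [comp_scale]
      exact (hu.mul_left_dvd).2 h
    obtain ⟨r, hr⟩ := h1
    refine ⟨(scE δ hδ).symm r, ?_⟩
    apply (scE δ hδ).injective
    rw [map_mul, AlgEquiv.apply_symm_apply]
    exact hr
  · rintro ⟨r, rfl⟩
    rw [mul_comp, comp_scale, mul_assoc]
    exact ⟨C (δ ^ G.natDegree) * r.comp (C δ * X), by ring⟩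

end Scale

/-- Units of the algebra. -/
theorem coprime_of_unit {K : Type} [Field K] {G p : K[X]} (h : IsUnit (AdjoinRoot.mk G p)) :
    IsCoprime p G := by
  obtain ⟨y, hy⟩ := h.exists_right_inv
  obtain ⟨q, rfl⟩ := AdjoinRoot.mk_surjective y
  rw [← map_mul, ← map_one (AdjoinRoot.mk G), AdjoinRoot.mk_eq_mk] at hy
  obtain ⟨r, hr⟩ := hy
  exact ⟨q, -r, by linear_combination hr⟩

end H33

open H33 in
/-- **TWS.** -/
theorem tws : TWSStmt := by
  intro F _ g f d hf _ hd ξ hξ hξ1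
  obtain ⟨u, hu, hN, hloc, -⟩ := hξ
  obtain ⟨δ, hδ⟩ : ∃ δ : RatFunc F, δ = rf d := ⟨_, rfl⟩
  have hδ0 : δ ≠ 0 := by
    rw [hδ]
    exact (map_ne_zero_iff _ (IsFractionRing.injective F[X] (RatFunc F))).2 hd
  have hfK : fK (f.scaleRoots d) = (fK f).scaleRoots δ := by
    rw [hδ]
    refine map_scaleRoots f d _ ?_
    rw [hf.leadingCoeff, map_one]
    exact one_ne_zero
  obtain ⟨p₀, hp₀⟩ := AdjoinRoot.mk_surjective (u : Alg (f.scaleRoots d))
  have hcop : IsCoprime p₀ (fK (f.scaleRoots d)) :=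
    coprime_of_unit (by rw [hp₀]; exact u.isUnit)
  refine ⟨p₀.comp (C δ * X), ?_, ?_, ?_, ?_⟩
  · have h1 := hcop.map (scE δ hδ0).toRingEquiv.toRingHom
    have h2 : IsCoprime (p₀.comp (C δ * X)) ((fK (f.scaleRoots d)).comp (C δ * X)) := h1
    rw [hfK, comp_scale] at h2
    exact h2.of_mul_right_right
  · unfold NSq
    rw [norm_scale _ _ _ hδ0, ← hfK, hp₀]
    exact hN
  · rintro ⟨s, hs⟩
    apply hξ1
    obtain ⟨s', rfl⟩ := (scE δ hδ0).surjective s
    have h1 : fK f ∣ (p₀ - s' ^ 2).comp (C δ * X) := by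
      rw [sub_comp, pow_comp]
      exact hs
    rw [dvd_scale _ _ _ hδ0, ← hfK] at h1
    have h2 : (u : Alg (f.scaleRoots d)) = AdjoinRoot.mk (fK (f.scaleRoots d)) s' ^ 2 := by
      rw [← hp₀, ← map_pow]
      exact AdjoinRoot.mk_eq_mk.2 h1
    have h3 : IsUnit (AdjoinRoot.mk (fK (f.scaleRoots d)) s') := by
      have h4 := u.isUnit
      rw [h2] at h4
      exact (isUnit_pow_iff two_ne_zero).1 h4
    obtain ⟨t, ht⟩ := h3
    rw [← hu]
    refine (QuotientGroup.eq_one_iff u).2 ⟨t, ?_⟩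
    refine Units.ext ?_
    show (t : Alg (f.scaleRoots d)) ^ 2 = u
    rw [ht, h2]
  · intro v
    obtain ⟨p, hp, u₁, w, s, a1, a2, a3, a4⟩ := hloc v
    obtain ⟨ι, hι⟩ : ∃ ι : RatFunc F →+* v.adicCompletion (RatFunc F),
      ι = algebraMap (RatFunc F) (v.adicCompletion (RatFunc F)) := ⟨_, rfl⟩
    rw [← hι] at a2 a3 a4 ⊢
    refine ⟨u₁, w, s.comp (C (ι δ) * X), a1, a2, a3, ?_⟩
    have hιδ : ι δ ≠ 0 := (map_ne_zero ι).2 hδ0
    rw [← hδ]
    have hcm : ∀ q : (RatFunc F)[X], (q.map ι).comp (C (ι δ) * X) = (q.comp (C δ * X)).map ι := by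
      intro q
      rw [map_comp, Polynomial.map_mul, map_C, map_X]
    -- the degree
    have hdeg : (u₁.comp (C (ι δ) * X)).natDegree = u₁.natDegree := by
      rw [natDegree_comp, natDegree_C_mul_X _ hιδ, mul_one]
    have b1 : (fK f).map ι ∣ ((-1) ^ u₁.natDegree * u₁ - p.map ι * s ^ 2).comp
        (C (ι δ) * X) := by
      obtain ⟨r, hr⟩ := a4
      rw [hr, mul_comp, hcm, hfK, comp_scale, Polynomial.map_mul]
      exact ⟨(C (δ ^ (fK f).natDegree)).map ι * r.comp (C (ι δ) * X), by ring⟩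
    have b2 : (fK f).map ι ∣ ((p - p₀).comp (C δ * X)).map ι := by
      refine Polynomial.map_dvd ι ?_
      rw [dvd_scale _ _ _ hδ0, ← hfK]
      exact AdjoinRoot.mk_eq_mk.1 (by rw [hp, hp₀])
    obtain ⟨r1, hr1⟩ := b1
    obtain ⟨r2, hr2⟩ := b2
    refine ⟨r1 + r2 * (s.comp (C (ι δ) * X)) ^ 2, ?_⟩
    unfold kap
    rw [hdeg]
    rw [sub_comp, mul_comp, mul_comp, pow_comp, pow_comp, neg_comp, one_comp, hcm] at hr1
    rw [sub_comp, Polynomial.map_sub] at hr2
    linear_combination hr1 + (s.comp (C (ι δ) * X)) ^ 2 * hr2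

end Pool.HYP
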