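import Pool.Agent.H41.HYP.S1

/-!
# HYP: MULR, addition of a rational point of order two
-/

set_option autoImplicit false

namespace Pool.HYP

open Polynomial

/-- **MULR.** -/
theorem mulr : MULRStmt := by
  intro K _ G u w E hG hGE hu hcop hdvd
  obtain ⟨a, ha⟩ : ∃ a : K[X], a = X - C E := ⟨_, rfl⟩
  have ham : a.Monic := by rw [ha]; exact monic_X_sub_C E
  have had : a.natDegree = 1 := by rw [ha]; exact natDegree_X_sub_C E
  have haE : a.eval E = 0 := by rw [ha]; simp
  rw [← ha] at hcop hdvd ⊢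
  have haG : IsCoprime a G := by
    rw [ha]
    exact (irreducible_X_sub_C E).coprime_iff_not_dvd.2 fun h => hGE (dvd_iff_isRoot.1 h)
  obtain ⟨α, β, h1⟩ := hcop
  obtain ⟨γ, δ, h2⟩ := id haG
  obtain ⟨t0, ht0⟩ := hdvd
  -- the Chinese remainder theorem
  obtain ⟨w0, hw0⟩ : ∃ w0 : K[X], w0 = w * (β * (a * G)) + γ * a * (α * u) := ⟨_, rfl⟩
  obtain ⟨m, hm⟩ : ∃ m : K[X], m = u * a * G * X ^ (w0.natDegree + 1) := ⟨_, rfl⟩
  have hmm : m.Monic := by
    rw [hm]
    exact ((hu.mul ham).mul hG).mul (monic_X_pow _)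
  have hmd : m.natDegree = u.natDegree + 1 + G.natDegree + (w0.natDegree + 1) := by
    rw [hm, ((hu.mul ham).mul hG).natDegree_mul (monic_X_pow _), (hu.mul ham).natDegree_mul hG,
      hu.natDegree_mul ham, had, natDegree_X_pow]
  have hlt : w0.natDegree < m.natDegree := by omega
  obtain ⟨w1, hw1⟩ : ∃ w1 : K[X], w1 = w0 + m := ⟨_, rfl⟩
  have hw1m : w1.Monic := by
    rw [hw1]
    exact hmm.add_of_right (degree_lt_degree hlt)
  have hw1d : w1.natDegree = m.natDegree := by
    rw [hw1]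
    exact natDegree_add_eq_right_of_natDegree_lt hlt
  have hfd : (a * G).natDegree = 1 + G.natDegree := by rw [ham.natDegree_mul hG, had]
  have hsqd : (w1 ^ 2).natDegree = 2 * w1.natDegree := by rw [hw1m.natDegree_pow]
  have hlt2 : (a * G).natDegree < (w1 ^ 2).natDegree := by
    rw [hsqd, hw1d, hmd, hfd]
    omega
  have hDm : (w1 ^ 2 - a * G).Monic := (hw1m.pow 2).sub_of_left (degree_lt_degree hlt2)
  have hDd : (w1 ^ 2 - a * G).natDegree = 2 * w1.natDegree := by
    rw [natDegree_sub_eq_left_of_natDegree_lt hlt2, hsqd]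
  -- the congruences
  have hmu : u ∣ w1 - w := by
    refine ⟨-(w * α) + γ * a * α + a * G * X ^ (w0.natDegree + 1), ?_⟩
    rw [hw1, hm, hw0]
    linear_combination w * h1
  have hma : a ∣ w1 := by
    refine ⟨w * (β * G) + γ * (α * u) + u * G * X ^ (w0.natDegree + 1), ?_⟩
    rw [hw1, hm, hw0]
    ring
  have hmG : G ∣ w1 - 1 := by
    refine ⟨w * (β * a) - γ * a * β * a - δ + u * a * X ^ (w0.natDegree + 1), ?_⟩
    rw [hw1, hm, hw0]
    linear_combination γ * a * h1 + h2
  obtain ⟨t, ht⟩ := hma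
  obtain ⟨r, hr⟩ := hmG
  obtain ⟨r', hr'⟩ := hmu
  have hud : u ∣ w1 ^ 2 - a * G := by
    refine ⟨r' * (w1 + w) + t0, ?_⟩
    linear_combination (w1 + w) * hr' + ht0
  have had' : a ∣ w1 ^ 2 - a * G := by
    refine ⟨w1 * t - G, ?_⟩
    linear_combination w1 * ht
  have hua : IsCoprime u a := IsCoprime.of_mul_right_left (⟨α, β, h1⟩ : IsCoprime u (a * G))
  obtain ⟨v, hv⟩ := hua.mul_dvd hud had'
  have hvm : v.Monic := by
    rw [hv] at hDm
    exact (hu.mul ham).of_mul_monic_left hDm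
  have hvd : u.natDegree + 1 + v.natDegree = 2 * w1.natDegree := by
    rw [← hDd, hv, (hu.mul ham).natDegree_mul hvm, hu.natDegree_mul ham, had]
  -- the signs
  have hsg : ∀ (R : Type) [CommRing R], ((-1 : R)) ^ v.natDegree * (-1) ^ u.natDegree = -1 := by
    intro R _
    have h3 : ((-1 : R)) ^ (v.natDegree + u.natDegree + 1) = 1 := by
      rw [show v.natDegree + u.natDegree + 1 = 2 * w1.natDegree by omega, pow_mul, neg_one_sq,
        one_pow]
    rw [pow_succ, pow_add] at h3
    linear_combination -h3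
  have hsu : ∀ (R : Type) [CommRing R], ((-1 : R)) ^ u.natDegree * (-1) ^ u.natDegree = 1 := by
    intro R _
    rw [← mul_pow]
    simp
  have hsv : ((-1 : K[X])) ^ v.natDegree = -(-1) ^ u.natDegree := by
    have h3 := hsg K[X]
    have h4 := hsu K[X]
    linear_combination (-1) ^ u.natDegree * h3 - (-1) ^ v.natDegree * h4
  -- modulo G
  have hvG : u * a * v = 1 + G * (r * (w1 + 1) - a) := by
    linear_combination -hv + (w1 + 1) * hr
  have hcG : IsCoprime v G := ⟨u * a, -(r * (w1 + 1) - a), by linear_combination hvG⟩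
  -- at E
  have hE : u * v = a * t ^ 2 - G := by
    have h3 : a * (u * v) = a * (a * t ^ 2 - G) := by
      rw [ht] at hv
      linear_combination -hv
    exact mul_left_cancel₀ ham.ne_zero h3
  have hE' : u.eval E * v.eval E = -G.eval E := by
    have h3 := congrArg (eval E) hE
    rw [eval_mul, eval_sub, eval_mul, haE, zero_mul, zero_sub] at h3
    exact h3
  have hvE : v.eval E ≠ 0 := by
    intro h3
    rw [h3, mul_zero] at hE'
    exact hGE (neg_eq_zero.1 hE'.symm)
  have hca : IsCoprime v a := by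
    rw [ha]
    exact ((irreducible_X_sub_C E).coprime_iff_not_dvd.2 fun h => hvE (dvd_iff_isRoot.1 h)).symm
  refine ⟨v, w1, v, hvm, hca.mul_right hcG, ⟨u * a, by rw [hv]; ring⟩, hcG, ?_, ?_⟩
  · refine ⟨(-1) ^ u.natDegree * v * (r * (w1 + 1) - a), ?_⟩
    unfold kap
    rw [hsv]
    have h3 : (C E - X : K[X]) = -a := by rw [ha]; ring
    rw [h3]
    linear_combination (-1) ^ u.natDegree * v * hvG
  · refine ⟨G.eval E, ?_⟩
    have h3 := hsg K
    unfold kap
    rw [eval_mul, eval_mul, eval_pow, eval_pow, eval_neg, eval_one]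
    linear_combination v.eval E * u.eval E * G.eval E * h3 - G.eval E * hE'

end Pool.HYP
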